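import Pool.Agent.P.MP_a0dde7_co.Main

/-! An apex over a regular graph of diameter two misses the broom. -/

set_option autoImplicit false

namespace Pool.Agent.P.MP_a0dde7_co

open SimpleGraph

/-- A graph together with one extra vertex joined to everything. -/
def apex {W : Type} (H : SimpleGraph W) : SimpleGraph (Option W) where
  Adj a b := match a, b with
    | none, none => False
    | none, some _ => True
    | some _, none => True
    | some u, some v => H.Adj u v
  symm := ⟨by
    rintro (_ | u) (_ | v) h
    · exact h
    · trivial
    · trivial
    · exact H.symm.1 _ _ h⟩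
  loopless := ⟨by
    rintro (_ | u) h
    · exact h
    · exact H.loopless.1 u h⟩

section apex

variable {W : Type} [Fintype W] (H : SimpleGraph W) [DecidableRel H.Adj]
  [DecidableRel (apex H).Adj]

omit [DecidableRel H.Adj] in
lemma apex_degree_none : (apex H).degree none = Fintype.card W := by
  have : (apex H).neighborFinset none = Finset.univ.map Function.Embedding.some := by
    ext (_ | v) <;> rw [mem_neighborFinset] <;> simp [apex]
  rw [← card_neighborFinset_eq_degree, this]
  simp

lemma apex_degree_some (u : W) : (apex H).degree (some u) = H.degree u + 1 := by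
  classical
  have : (apex H).neighborFinset (some u) =
      insert none ((H.neighborFinset u).map Function.Embedding.some) := by
    ext (_ | v) <;> rw [mem_neighborFinset] <;> simp [apex]
  rw [← card_neighborFinset_eq_degree, this, Finset.card_insert_of_notMem (by simp),
    Finset.card_map, card_neighborFinset_eq_degree]

lemma broom_not_apex (r : ℕ) (hr : ∀ u, H.degree u ≤ r)
    (h2 : ∀ u v, u ≠ v → H.Adj u v ∨ ∃ w, H.Adj u w ∧ H.Adj v w) :
    ¬ (broom r).IsContained (apex H) := by
  rintro ⟨f⟩
  have sat : ∀ (b : Bool) (u : W), f (some (b, none)) = some u →
      ∀ w, (apex H).Adj (some u) w → ∃ s, (broom r).Adj (some (b, none)) s ∧ f s = w := by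
    intro b u hu w hw
    refine copy_saturated f _ ?_ w (hu ▸ hw)
    rw [hu, broom_degree_centre, apex_degree_some]
    have := hr u
    omega
  have inj : ∀ s t, f s = f t → s = t := fun s t h => f.injective h
  have nadj : ∀ b c : Bool, ¬ (broom r).Adj (some (b, none)) (some (c, none)) := by
    intro b c h
    simp [broom] at h
  have common : ∀ s, (broom r).Adj (some (false, none)) s → (broom r).Adj (some (true, none)) s →
      s = none := by
    rintro (_ | ⟨c, o⟩) h1 h2
    · rfl
    · have e1 : false = c := h1.1
      have e2 : true = c := h2.1
      rw [← e1] at e2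
      exact absurd e2 (by simp)
  rcases hx : f (some (false, none)) with _ | u <;> rcases hy : f (some (true, none)) with _ | v
  · have := inj _ _ (hx.trans hy.symm)
    simp at this
  · obtain ⟨s, hs, e⟩ := sat true v hy none trivial
    have := inj _ _ (e.trans hx.symm)
    subst this
    exact nadj _ _ hs
  · obtain ⟨s, hs, e⟩ := sat false u hx none trivial
    have := inj _ _ (e.trans hy.symm)
    subst this
    exact nadj _ _ hs
  · have huv : u ≠ v := by
      rintro rfl
      have := inj _ _ (hx.trans hy.symm)
      simp at this
    have both : ∀ w, (apex H).Adj (some u) w → (apex H).Adj (some v) w → f none = w := by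
      intro w h1 h2
      obtain ⟨s, hs, e⟩ := sat false u hx w h1
      obtain ⟨s', hs', e'⟩ := sat true v hy w h2
      have := inj _ _ (e.trans e'.symm)
      subst this
      rw [← common s hs hs']
      exact e
    have hz : f none = none := both none trivial trivial
    rcases h2 u v huv with hadj | ⟨w, h1, h2⟩
    · obtain ⟨s, hs, e⟩ := sat false u hx (some v) hadj
      have := inj _ _ (e.trans hy.symm)
      subst this
      exact nadj _ _ hs
    · have := both (some w) h1 h2
      rw [hz] at this
      simp at this

end apex

/-- The polarity graph of the projective plane with a matching on the absolute points. -/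
def brown (F : Type) [Field F] : SimpleGraph ((F × F) ⊕ Option F) where
  Adj a b := match a, b with
    | .inl u, .inl w => u ≠ w ∧
        (u.2 + w.2 = u.1 * w.1 ∨ (u.2 + u.2 = u.1 * u.1 ∧ w.1 = -u.1 ∧ w.2 = u.2))
    | .inl u, .inr (some m) => u.1 = m
    | .inr (some m), .inl u => u.1 = m
    | .inl u, .inr none => u = (0, 0)
    | .inr none, .inl u => u = (0, 0)
    | .inr (some _), .inr none => True
    | .inr none, .inr (some _) => True
    | .inr (some _), .inr (some _) => False
    | .inr none, .inr none => False
  symm := ⟨by
    rintro (u | _ | m) (w | _ | m') h <;> try exact h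
    refine ⟨h.1.symm, h.2.imp (fun e => by rw [add_comm, mul_comm, e]) fun ⟨e1, e2, e3⟩ => ?_⟩
    rw [e2, e3]
    exact ⟨by rw [e1]; ring, by ring, rfl⟩⟩
  loopless := ⟨by
    rintro (u | _ | m) h
    · exact h.1 rfl
    · exact h
    · exact h⟩

section brown

variable {F : Type} [Field F]

lemma brown_two (u v : (F × F) ⊕ Option F) (h : u ≠ v) :
    (brown F).Adj u v ∨ ∃ w, (brown F).Adj u w ∧ (brown F).Adj v w := by
  have k1 : ∀ (a : F × F) (m : F), (brown F).Adj (.inl a) (.inr (some m)) ∨
      ∃ w, (brown F).Adj (.inl a) w ∧ (brown F).Adj (.inr (some m)) w := fun a m => by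
    by_cases e : a.1 = m
    · exact Or.inl e
    · exact Or.inr ⟨.inl (m, a.1 * m - a.2),
        ⟨fun h => e (congrArg Prod.fst h), Or.inl (by simp)⟩, rfl⟩
  rcases u with a | _ | m <;> rcases v with b | _ | m'
  · have hab : a ≠ b := fun e => h (by rw [e])
    by_cases e : a.1 = b.1
    · exact Or.inr ⟨.inr (some a.1), rfl, e.symm⟩
    · have hd : a.1 - b.1 ≠ 0 := sub_ne_zero.2 e
      let x := (a.2 - b.2) / (a.1 - b.1)
      have hx : x * (a.1 - b.1) = a.2 - b.2 := div_mul_cancel₀ _ hd
      have h1 : a.2 + (a.1 * x - a.2) = a.1 * x := by ring
      have h2 : b.2 + (a.1 * x - a.2) = b.1 * x := by linear_combination hx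
      by_cases e1 : a = (x, a.1 * x - a.2)
      · refine Or.inl ⟨hab, Or.inl ?_⟩
        have e2 : a.1 = x := congrArg Prod.fst e1
        have e3 : a.2 = a.1 * x - a.2 := congrArg Prod.snd e1
        rw [← e3, ← e2] at h2
        linear_combination h2
      · by_cases e1' : b = (x, a.1 * x - a.2)
        · refine Or.inl ⟨hab, Or.inl ?_⟩
          rw [e1']
          exact h1
        · exact Or.inr ⟨.inl (x, a.1 * x - a.2), ⟨e1, Or.inl h1⟩, ⟨e1', Or.inl h2⟩⟩
  · exact Or.inr ⟨.inr (some a.1), rfl, trivial⟩
  · exact k1 a m'
  · exact Or.inr ⟨.inr (some b.1), trivial, rfl⟩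
  · exact absurd rfl h
  · exact Or.inl trivial
  · rcases k1 b m with h | ⟨w, h1, h2⟩
    · exact Or.inl h.symm
    · exact Or.inr ⟨w, h2, h1⟩
  · exact Or.inl trivial
  · exact Or.inr ⟨.inr none, trivial, trivial⟩

lemma degree_of_param {W ι : Type} [Fintype W] [Fintype ι] (H : SimpleGraph W)
    [DecidableRel H.Adj] (u : W) (g : ι → W) (hg : Function.Injective g)
    (h : ∀ w, H.Adj u w ↔ ∃ i, g i = w) : H.degree u = Fintype.card ι := by
  classical
  have : H.neighborFinset u = Finset.univ.image g := by
    ext w
    rw [mem_neighborFinset, h]
    simp
  rw [← card_neighborFinset_eq_degree, this, Finset.card_image_of_injective _ hg,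
    Finset.card_univ]

lemma brown_degree [Fintype F] [DecidableRel (brown F).Adj] (h2 : (2 : F) ≠ 0)
    (u : (F × F) ⊕ Option F) : (brown F).degree u = Fintype.card F + 1 := by
  classical
  rw [← Fintype.card_option]
  rcases u with ⟨x, y⟩ | _ | m
  · by_cases ha : y + y = x * x
    · by_cases hx : x = 0
      · subst hx
        have hy : y = 0 := by
          have : 2 * y = 0 := by linear_combination ha
          exact (mul_eq_zero.1 this).resolve_left h2
        subst hy
        refine degree_of_param _ _ (fun o : Option F => match o with
          | none => .inr (some 0)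
          | some z => if z = 0 then .inr none else .inl (z, 0)) ?_ ?_
        · rintro (_ | a) (_ | b) h
          · rfl
          · by_cases hb : b = 0 <;> simp [hb] at h
          · by_cases hb : a = 0 <;> simp [hb] at h
          · by_cases ha : a = 0 <;> by_cases hb : b = 0 <;> simp_all
        · rintro (⟨z, w⟩ | _ | m)
          · constructor
            · rintro ⟨h1, h | ⟨-, h, h'⟩⟩
              · have hw : w = 0 := by simpa using h
                subst hw
                have hz : z ≠ 0 := fun e => h1 (by rw [e])
                exact ⟨some z, by simp [hz]⟩
              · simp only [neg_zero] at h h'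
                exact absurd (by rw [h, h']) h1
            · rintro ⟨_ | a, h⟩
              · simp at h
              · by_cases ha : a = 0
                · simp [ha] at h
                · simp only [ha, if_false, Sum.inl.injEq, Prod.mk.injEq] at h
                  obtain ⟨rfl, rfl⟩ := h
                  exact ⟨fun e => ha (congrArg Prod.fst e).symm, Or.inl (by simp)⟩
          · exact ⟨fun _ => ⟨some 0, by simp⟩, fun _ => rfl⟩
          · constructor
            · intro h
              exact ⟨none, by rw [show (0 : F) = m from h]⟩
            · rintro ⟨_ | a, h⟩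
              · simp only [Sum.inr.injEq, Option.some.injEq] at h
                exact h
              · by_cases ha : a = 0 <;> simp [ha] at h
      · have hxx : x * x + x * x ≠ 0 := by
          have : x * x + x * x = 2 * (x * x) := by ring
          rw [this]
          exact mul_ne_zero h2 (mul_ne_zero hx hx)
        have hnx : -x ≠ x := fun e => hxx (by linear_combination -x * e)
        refine degree_of_param _ _ (fun o : Option F => match o with
          | none => .inr (some x)
          | some z => if z = x then .inl (-x, y) else .inl (z, x * z - y)) ?_ ?_
        · rintro (_ | a) (_ | b) h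
          · rfl
          · by_cases hb : b = x <;> simp [hb] at h
          · by_cases hb : a = x <;> simp [hb] at h
          · by_cases h1 : a = x <;> by_cases hb : b = x
            · rw [h1, hb]
            · simp only [h1, hb, if_true, if_false, Sum.inl.injEq, Prod.mk.injEq] at h
              exact absurd (by linear_combination -ha + h.2 - x * h.1) hxx
            · simp only [h1, hb, if_true, if_false, Sum.inl.injEq, Prod.mk.injEq] at h
              exact absurd (by linear_combination -ha - h.2 + x * h.1) hxx
            · simp only [h1, hb, if_false, Sum.inl.injEq, Prod.mk.injEq] at h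
              rw [h.1]
        · rintro (⟨z, w⟩ | _ | m)
          · constructor
            · rintro ⟨h1, h | ⟨-, h, h'⟩⟩
              · have h : y + w = x * z := h
                have hz : z ≠ x := fun e => h1 (by
                  rw [e] at h
                  rw [e, show w = y by linear_combination h - ha])
                exact ⟨some z, by
                  simp only [hz, if_false]
                  rw [show x * z - y = w by linear_combination -h]⟩
              · exact ⟨some x, by
                  simp only [if_true]
                  rw [show z = -x from h, show w = y from h']⟩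
            · rintro ⟨_ | a, h⟩
              · simp at h
              · by_cases h1 : a = x
                · simp only [h1, if_true, Sum.inl.injEq, Prod.mk.injEq] at h
                  obtain ⟨rfl, rfl⟩ := h
                  exact ⟨fun e => hnx (congrArg Prod.fst e).symm, Or.inr ⟨ha, rfl, rfl⟩⟩
                · simp only [h1, if_false, Sum.inl.injEq, Prod.mk.injEq] at h
                  obtain ⟨rfl, rfl⟩ := h
                  exact ⟨fun e => h1 (congrArg Prod.fst e).symm, Or.inl (by simp)⟩
          · constructor
            · intro h
              exact absurd (congrArg Prod.fst h) hx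
            · rintro ⟨_ | a, h⟩
              · simp at h
              · by_cases h1 : a = x <;> simp [h1] at h
          · constructor
            · intro h
              exact ⟨none, by rw [show x = m from h]⟩
            · rintro ⟨_ | a, h⟩
              · simp only [Sum.inr.injEq, Option.some.injEq] at h
                exact h
              · by_cases h1 : a = x <;> simp [h1] at h
    · refine degree_of_param _ _ (fun o : Option F => match o with
        | none => .inr (some x)
        | some z => .inl (z, x * z - y)) ?_ ?_
      · rintro (_ | a) (_ | b) h <;> simp_all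
      · rintro (⟨z, w⟩ | _ | m)
        · constructor
          · rintro ⟨-, h | ⟨h, -⟩⟩
            · have h : y + w = x * z := h
              exact ⟨some z, by rw [show w = x * z - y by linear_combination h]⟩
            · exact absurd h ha
          · rintro ⟨_ | a, h⟩
            · simp at h
            · simp only [Sum.inl.injEq, Prod.mk.injEq] at h
              obtain ⟨rfl, rfl⟩ := h
              refine ⟨fun e => ha ?_, Or.inl (by simp)⟩
              have e1 : x = a := congrArg Prod.fst e
              have e2 : y = x * a - y := congrArg Prod.snd e
              linear_combination e2 - x * e1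
        · constructor
          · intro h
            have e1 : x = 0 := congrArg Prod.fst h
            have e2 : y = 0 := congrArg Prod.snd h
            exact absurd (by rw [e1, e2]; ring) ha
          · rintro ⟨_ | a, h⟩ <;> simp at h
        · constructor
          · intro h
            exact ⟨none, by rw [show x = m from h]⟩
          · rintro ⟨_ | a, h⟩
            · simp only [Sum.inr.injEq, Option.some.injEq] at h
              exact h
            · simp at h
  · refine degree_of_param _ _ (fun o : Option F => match o with
      | none => .inl (0, 0)
      | some z => .inr (some z)) ?_ ?_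
    · rintro (_ | a) (_ | b) h <;> simp_all
    · rintro (w | _ | m)
      · constructor
        · intro h
          exact ⟨none, by rw [show w = (0, 0) from h]⟩
        · rintro ⟨_ | a, h⟩
          · simp only [Sum.inl.injEq] at h
            exact h.symm
          · simp at h
      · constructor
        · exact False.elim
        · rintro ⟨_ | a, h⟩ <;> simp at h
      · exact ⟨fun _ => ⟨some m, rfl⟩, fun _ => trivial⟩
  · refine degree_of_param _ _ (fun o : Option F => match o with
      | none => .inr none
      | some z => .inl (m, z)) ?_ ?_
    · rintro (_ | a) (_ | b) h <;> simp_all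
    · rintro (⟨z, w⟩ | _ | m')
      · constructor
        · intro h
          exact ⟨some w, by rw [show z = m from h]⟩
        · rintro ⟨_ | a, h⟩
          · simp at h
          · simp only [Sum.inl.injEq, Prod.mk.injEq] at h
            exact h.1.symm
      · exact ⟨fun _ => ⟨none, rfl⟩, fun _ => trivial⟩
      · constructor
        · exact False.elim
        · rintro ⟨_ | a, h⟩ <;> simp at h

end brown

lemma broom_dist (r : ℕ) (x y : Option (Bool × Option (Fin r))) : (broom r).dist x y ≤ 4 := by
  have h0 : ∀ v, (broom r).dist none v ≤ 2 := by
    rintro (_ | ⟨b, _ | i⟩)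
    · simp
    · have h1 : (broom r).Adj none (some (b, none)) := rfl
      rw [dist_eq_one_iff_adj.2 h1]
      omega
    · have h1 : (broom r).Adj none (some (b, none)) := rfl
      have h2 : (broom r).Adj (some (b, none)) (some (b, some i)) :=
        ⟨rfl, Or.inl ⟨rfl, by simp⟩⟩
      exact dist_le (Walk.cons h1 (Walk.cons h2 Walk.nil))
  have := (broom_connected r).dist_triangle (u := x) (v := none) (w := y)
  have h1 := h0 x
  have h2 := h0 y
  rw [dist_comm] at h1
  omega

/-- The lower bound family. -/
theorem lower (p : ℕ) (hp : p.Prime) (h3 : 3 ≤ p) :
    ∃ (V : Type) (_ : Fintype V) (_ : Nonempty V) (G : SimpleGraph V) (_ : DecidableRel G.Adj),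
      p + 2 ≤ G.minDegree ∧ p ^ 2 + p + 1 ≤ G.maxDegree ∧
      ∃ T : SimpleGraph (Fin (2 * p + 4 + 1)), T.IsTree ∧ (∀ x y, T.dist x y ≤ 4) ∧
        ¬ T.IsContained G := by
  classical
  have : Fact p.Prime := ⟨hp⟩
  have h2 : (2 : ZMod p) ≠ 0 := by
    intro h
    have : ((2 : ℕ) : ZMod p) = 0 := by exact_mod_cast h
    have := Nat.le_of_dvd (by norm_num) ((ZMod.natCast_eq_zero_iff 2 p).1 this)
    omega
  have hd : ∀ u, (brown (ZMod p)).degree u = p + 1 := fun u => by
    rw [brown_degree h2, ZMod.card]
  have hn : (apex (brown (ZMod p))).degree none = p ^ 2 + p + 1 := by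
    rw [apex_degree_none]
    simp [ZMod.card, sq, add_assoc]
  refine ⟨_, inferInstance, inferInstance, apex (brown (ZMod p)), inferInstance, ?_, ?_, ?_⟩
  · apply le_minDegree_of_forall_le_degree
    rintro (_ | u)
    · rw [hn]
      nlinarith
    · rw [apex_degree_some, hd]
  · rw [← hn]
    exact degree_le_maxDegree _ _
  · have hc : Fintype.card (Option (Bool × Option (Fin (p + 1)))) = 2 * p + 4 + 1 := by
      simp
      omega
    let e : Option (Bool × Option (Fin (p + 1))) ≃ Fin (2 * p + 4 + 1) :=
      Fintype.equivFinOfCardEq hc
    have iso : broom (p + 1) ≃g (broom (p + 1)).map e := Iso.map e (broom (p + 1))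
    refine ⟨(broom (p + 1)).map e, iso.isTree_iff.1 (broom_isTree _), fun x y => ?_, fun h => ?_⟩
    · obtain ⟨x, rfl⟩ := iso.surjective x
      obtain ⟨y, rfl⟩ := iso.surjective y
      obtain ⟨w, hw⟩ := ((broom_connected (p + 1)) x y).exists_walk_length_eq_dist
      refine (dist_le (w.map iso.toHom)).trans ?_
      rw [Walk.length_map, hw]
      exact broom_dist _ _ _
    · exact broom_not_apex _ (p + 1) (fun u => (hd u).le) brown_two (iso.isContained.trans h)

end Pool.Agent.P.MP_a0dde7_co
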