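import Mathlib

set_option autoImplicit false

namespace Pool.Agent.P.MP_a0dde7_co

open SimpleGraph

/-- The m by m rook graph together with one extra vertex joined to everything. -/
def apexRook (m : ℕ) : SimpleGraph (Option (Fin m × Fin m)) where
  Adj a b := match a, b with
    | none, none => False
    | none, some _ => True
    | some _, none => True
    | some u, some v => u ≠ v ∧ (u.1 = v.1 ∨ u.2 = v.2)
  symm := ⟨by
    rintro (_ | u) (_ | v) h
    · exact h
    · trivial
    · trivial
    · exact ⟨fun e => h.1 e.symm, h.2.imp Eq.symm Eq.symm⟩⟩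
  loopless := ⟨by
    rintro (_ | u) h
    · exact h
    · exact h.1 rfl⟩

/-- Two centres at distance two, each with r pendant leaves. -/
def broom (r : ℕ) : SimpleGraph (Option (Bool × Option (Fin r))) where
  Adj a b := match a, b with
    | none, none => False
    | none, some w => w.2 = none
    | some w, none => w.2 = none
    | some u, some w => u.1 = w.1 ∧ ((u.2 = none ∧ w.2 ≠ none) ∨ (u.2 ≠ none ∧ w.2 = none))
  symm := ⟨by
    rintro (_ | u) (_ | v) h
    · exact h
    · exact h
    · exact h
    · refine ⟨h.1.symm, ?_⟩
      rcases h.2 with h | h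
      · exact Or.inr ⟨h.2, h.1⟩
      · exact Or.inl ⟨h.2, h.1⟩⟩
  loopless := ⟨by
    rintro (_ | u) h
    · exact h
    · rcases h.2 with h | h
      · exact h.2 h.1
      · exact h.1 h.2⟩

lemma broom_connected (r : ℕ) : (broom r).Connected := by
  have h0 : ∀ v, (broom r).Reachable none v := by
    rintro (_ | ⟨b, _ | i⟩)
    · exact Reachable.refl _
    · exact Adj.reachable (show (broom r).Adj none (some (b, none)) from rfl)
    · have h1 : (broom r).Adj none (some (b, none)) := rfl
      have h2 : (broom r).Adj (some (b, none)) (some (b, some i)) :=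
        ⟨rfl, Or.inl ⟨rfl, by simp⟩⟩
      exact h1.reachable.trans h2.reachable
  exact ⟨fun u v => (h0 u).symm.trans (h0 v)⟩

/-- The edge from a non-root vertex to its parent. -/
def parentEdge (r : ℕ) (w : Bool × Option (Fin r)) : Sym2 (Option (Bool × Option (Fin r))) :=
  match w.2 with
  | none => s(some w, none)
  | some _ => s(some w, some (w.1, none))

lemma broom_edgeSet_subset (r : ℕ) : (broom r).edgeSet ⊆ Set.range (parentEdge r) := by
  intro e he
  induction e using Sym2.ind with
  | h a b =>
    rw [mem_edgeSet] at he
    rcases a with _ | ⟨b1, o1⟩ <;> rcases b with _ | ⟨b2, o2⟩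
    · exact he.elim
    · have : o2 = none := he
      subst this
      exact ⟨(b2, none), by simp [parentEdge, Sym2.eq_swap]⟩
    · have : o1 = none := he
      subst this
      exact ⟨(b1, none), by simp [parentEdge]⟩
    · obtain ⟨h1, h2⟩ := he
      simp only at h1 h2
      subst h1
      rcases h2 with ⟨h2, h3⟩ | ⟨h2, h3⟩
      · subst h2
        obtain ⟨i, rfl⟩ := Option.ne_none_iff_exists'.1 h3
        exact ⟨(b1, some i), by simp [parentEdge, Sym2.eq_swap]⟩
      · subst h3
        obtain ⟨i, rfl⟩ := Option.ne_none_iff_exists'.1 h2
        exact ⟨(b1, some i), by simp [parentEdge]⟩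

lemma broom_isTree (r : ℕ) : (broom r).IsTree := by
  rw [isTree_iff_connected_and_card]
  refine ⟨broom_connected r, le_antisymm ?_ (broom_connected r).card_vert_le_card_edgeSet_add_one⟩
  have h1 : Nat.card (broom r).edgeSet ≤ Nat.card (Set.range (parentEdge r)) :=
    Nat.card_mono (Set.toFinite _) (broom_edgeSet_subset r)
  have h2 : Nat.card (Set.range (parentEdge r)) ≤ Nat.card (Bool × Option (Fin r)) :=
    Finite.card_range_le _
  have h3 : Nat.card (Option (Bool × Option (Fin r))) = Nat.card (Bool × Option (Fin r)) + 1 := by
    simp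
  omega

instance (m : ℕ) : DecidableRel (apexRook m).Adj := by
  rintro (_ | u) (_ | v) <;> unfold apexRook <;> simp only <;> infer_instance

instance (r : ℕ) : DecidableRel (broom r).Adj := by
  rintro (_ | u) (_ | v) <;> unfold broom <;> simp only <;> infer_instance

lemma apexRook_degree_none (m : ℕ) : (apexRook m).degree none = m ^ 2 := by
  have : (apexRook m).neighborFinset none = Finset.univ.map Function.Embedding.some := by
    ext (_ | v) <;> rw [mem_neighborFinset] <;> simp [apexRook]
  rw [← card_neighborFinset_eq_degree, this]
  simp [sq]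

lemma apexRook_degree_some (m : ℕ) (u : Fin m × Fin m) :
    (apexRook m).degree (some u) + 1 = 2 * m := by
  classical
  obtain ⟨a, b⟩ := u
  have : (apexRook m).neighborFinset (some (a, b)) =
      insert none (((Finset.univ.erase b).image (fun j => some (a, j))) ∪
        ((Finset.univ.erase a).image (fun i => some (i, b)))) := by
    ext (_ | ⟨c, d⟩) <;> rw [mem_neighborFinset]
    · simp [apexRook]
    · simp only [apexRook, Finset.mem_insert, reduceCtorEq, Finset.mem_union,
        Finset.mem_image, Finset.mem_erase, Finset.mem_univ, and_true, Option.some.injEq,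
        Prod.mk.injEq, false_or, ne_eq]
      constructor
      · rintro ⟨h1, h2 | h2⟩
        · left
          exact ⟨d, fun h => h1 ⟨h2, h.symm⟩, h2, rfl⟩
        · right
          exact ⟨c, fun h => h1 ⟨h.symm, h2⟩, rfl, h2⟩
      · rintro (⟨j, h1, h2, h3⟩ | ⟨j, h1, h2, h3⟩)
        · subst h2 h3
          exact ⟨fun h => h1 h.2.symm, Or.inl rfl⟩
        · subst h2 h3
          exact ⟨fun h => h1 h.1.symm, Or.inr rfl⟩
  rw [← card_neighborFinset_eq_degree, this, Finset.card_insert_of_notMem (by simp),
    Finset.card_union_of_disjoint, Finset.card_image_of_injective, Finset.card_image_of_injective]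
  · have := a.pos
    simp only [Finset.card_erase_of_mem (Finset.mem_univ _), Finset.card_univ, Fintype.card_fin]
    omega
  · intro x y h
    simpa using h
  · intro x y h
    simpa using h
  · rw [Finset.disjoint_left]
    intro x hx hy
    simp only [Finset.mem_image, Finset.mem_erase, Finset.mem_univ, and_true] at hx hy
    obtain ⟨j, hj, rfl⟩ := hx
    obtain ⟨i, hi, h⟩ := hy
    simp only [Option.some.injEq, Prod.mk.injEq] at h
    exact hi h.1

lemma broom_degree_centre (r : ℕ) (b : Bool) : (broom r).degree (some (b, none)) = r + 1 := by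
  classical
  have : (broom r).neighborFinset (some (b, none)) =
      insert none (Finset.univ.image (fun i : Fin r => some (b, some i))) := by
    ext (_ | ⟨c, _ | i⟩) <;> rw [mem_neighborFinset] <;> simp [broom]
  rw [← card_neighborFinset_eq_degree, this, Finset.card_insert_of_notMem (by simp),
    Finset.card_image_of_injective]
  · simp
  · intro x y h
    simpa using h

/-- If a copy sends t to a vertex of the same degree, every neighbour of the image is hit
by a neighbour of t. -/
lemma copy_saturated {α β : Type} [Fintype α] [Fintype β] {A : SimpleGraph α} {B : SimpleGraph β}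
    [DecidableRel A.Adj] [DecidableRel B.Adj] (f : Copy A B) (t : α)
    (h : B.degree (f t) ≤ A.degree t) (w : β) (hw : B.Adj (f t) w) :
    ∃ s, A.Adj t s ∧ f s = w := by
  have hb : Function.Bijective (f.mapNeighborSet t) := by
    rw [Fintype.bijective_iff_injective_and_card]
    refine ⟨(f.mapNeighborSet t).injective, le_antisymm
      (Fintype.card_le_of_embedding (f.mapNeighborSet t)) ?_⟩
    rw [card_neighborSet_eq_degree, card_neighborSet_eq_degree]
    exact h
  obtain ⟨⟨s, hs⟩, e⟩ := hb.2 ⟨w, hw⟩
  exact ⟨s, hs, congrArg Subtype.val e⟩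

lemma broom_not_contained (m r : ℕ) (hmr : r + 2 = 2 * m) : ¬ (broom r).IsContained (apexRook m) := by
  rintro ⟨f⟩
  have sat : ∀ (b : Bool) (u : Fin m × Fin m), f (some (b, none)) = some u →
      ∀ w, (apexRook m).Adj (some u) w → ∃ s, (broom r).Adj (some (b, none)) s ∧ f s = w := by
    intro b u hu w hw
    refine copy_saturated f _ ?_ w (hu ▸ hw)
    rw [hu, broom_degree_centre]
    have := apexRook_degree_some m u
    omega
  have inj : ∀ s t, f s = f t → s = t := fun s t h => f.injective h
  have nadj : ∀ b c : Bool, ¬ (broom r).Adj (some (b, none)) (some (c, none)) := by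
    intro b c h
    simp [broom] at h
  have common : ∀ s, (broom r).Adj (some (false, none)) s → (broom r).Adj (some (true, none)) s →
      s = none := by
    rintro (_ | ⟨c, o⟩) h1 h2
    · rfl
    · have e1 : false = c := h1.1
      have e2 : true = c := h2.1
      rw [← e1] at e2
      exact absurd e2 (by simp)
  rcases hx : f (some (false, none)) with _ | u <;> rcases hy : f (some (true, none)) with _ | v
  · have := inj _ _ (hx.trans hy.symm)
    simp at this
  · obtain ⟨s, hs, e⟩ := sat true v hy none trivial
    have := inj _ _ (e.trans hx.symm)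
    subst this
    exact nadj _ _ hs
  · obtain ⟨s, hs, e⟩ := sat false u hx none trivial
    have := inj _ _ (e.trans hy.symm)
    subst this
    exact nadj _ _ hs
  · have huv : u ≠ v := by
      rintro rfl
      have := inj _ _ (hx.trans hy.symm)
      simp at this
    have both : ∀ w, (apexRook m).Adj (some u) w → (apexRook m).Adj (some v) w → f none = w := by
      intro w h1 h2
      obtain ⟨s, hs, e⟩ := sat false u hx w h1
      obtain ⟨s', hs', e'⟩ := sat true v hy w h2
      have := inj _ _ (e.trans e'.symm)
      subst this
      rw [← common s hs hs']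
      exact e
    have hz : f none = none := both none trivial trivial
    by_cases hadj : u.1 = v.1 ∨ u.2 = v.2
    · obtain ⟨s, hs, e⟩ := sat false u hx (some v) ⟨huv, hadj⟩
      have := inj _ _ (e.trans hy.symm)
      subst this
      exact nadj _ _ hs
    · push Not at hadj
      have := both (some (u.1, v.2)) ⟨fun h => hadj.2 (congrArg Prod.snd h :), Or.inl rfl⟩
        ⟨fun h => hadj.1 (congrArg Prod.fst h :).symm, Or.inr rfl⟩
      rw [hz] at this
      simp at this

/-- The family of counterexamples. -/
theorem family (m : ℕ) (hm : 1 ≤ m) (k : ℕ) (hk : k + 2 = 4 * m) :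
    2 * (apexRook m).minDegree = k ∧ m ^ 2 ≤ (apexRook m).maxDegree ∧
      ∃ T : SimpleGraph (Fin (k + 1)), T.IsTree ∧ ¬ T.IsContained (apexRook m) := by
  refine ⟨?_, ?_, ?_⟩
  · apply le_antisymm
    · have h1 := (apexRook m).minDegree_le_degree (some (⟨0, hm⟩, ⟨0, hm⟩))
      have h2 := apexRook_degree_some m (⟨0, hm⟩, ⟨0, hm⟩)
      omega
    · have : 2 * m - 1 ≤ (apexRook m).minDegree := by
        apply le_minDegree_of_forall_le_degree
        rintro (_ | u)
        · rw [apexRook_degree_none]
          have : 2 * m ≤ m ^ 2 + 1 := by nlinarith [sq_nonneg ((m : ℤ) - 1)]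
          omega
        · have h2 := apexRook_degree_some m u
          omega
      omega
  · rw [← apexRook_degree_none]
    exact degree_le_maxDegree _ _
  · obtain ⟨r, hr⟩ : ∃ r, r + 2 = 2 * m := ⟨2 * m - 2, by omega⟩
    have hc : Fintype.card (Option (Bool × Option (Fin r))) = k + 1 := by
      simp
      omega
    let e : Option (Bool × Option (Fin r)) ≃ Fin (k + 1) := Fintype.equivFinOfCardEq hc
    have iso : broom r ≃g (broom r).map e := Iso.map e (broom r)
    refine ⟨(broom r).map e, iso.isTree_iff.1 (broom_isTree r), fun h => ?_⟩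
    exact broom_not_contained m r hr (iso.isContained.trans h)

end Pool.Agent.P.MP_a0dde7_co
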