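import Mathlib

/-! Trees of diameter at most four and systems of stars. -/

set_option autoImplicit false

namespace Pool.Agent.P.MP_a0dde7_co

open SimpleGraph Finset

section tree

variable {α : Type} {T : SimpleGraph α}

lemma nb3 (h : T.IsAcyclic) {t c d : α} (h1 : T.Adj t c) (h2 : T.Adj c d) (h3 : T.Adj d t) :
    False := by
  have := (h.isPath_iff_isChain (Walk.cons h1 (Walk.cons h2 (Walk.cons h3 Walk.nil)))).2 (by
    have := h1.ne; have := h2.ne; have := h3.ne
    simp
    grind)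
  simp at this

lemma nb4 (h : T.IsAcyclic) {t c x d : α} (h1 : T.Adj t c) (h2 : T.Adj c x) (h3 : T.Adj x d)
    (h4 : T.Adj d t) (e1 : x ≠ t) (e2 : c ≠ d) : False := by
  have := (h.isPath_iff_isChain
    (Walk.cons h1 (Walk.cons h2 (Walk.cons h3 (Walk.cons h4 Walk.nil))))).2 (by
    have := h1.ne; have := h2.ne; have := h3.ne; have := h4.ne
    simp
    grind)
  simp at this

lemma path5 (h : T.IsAcyclic) {a b c d e f : α} (h1 : T.Adj a b) (h2 : T.Adj b c)
    (h3 : T.Adj c d) (h4 : T.Adj d e) (h5 : T.Adj e f) (e1 : a ≠ c) (e2 : b ≠ d) (e3 : c ≠ e)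
    (e4 : d ≠ f) : (Walk.cons h1 (Walk.cons h2 (Walk.cons h3 (Walk.cons h4
      (Walk.cons h5 Walk.nil))))).IsPath :=
  (h.isPath_iff_isChain _).2 (by
    have := h1.ne; have := h2.ne; have := h3.ne; have := h4.ne; have := h5.ne
    simp
    grind)

/-- A finite tree of diameter at most four has a centre. -/
lemma exists_centre [Fintype α] (hT : T.IsTree) (hd : ∀ x y, T.dist x y ≤ 4) :
    ∃ t, ∀ x, x = t ∨ T.Adj t x ∨ ∃ c, T.Adj t c ∧ T.Adj c x := by
  classical
  have := hT.connected.nonempty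
  let R : α → Finset α := fun t => univ.filter fun x => x = t ∨ T.Adj t x ∨ ∃ c, T.Adj t c ∧ T.Adj c x
  have hR : ∀ t x, x ∈ R t ↔ x = t ∨ T.Adj t x ∨ ∃ c, T.Adj t c ∧ T.Adj c x := fun t x => by
    simp [R]
  obtain ⟨t, -, ht⟩ := exists_max_image univ (fun t => (R t).card) univ_nonempty
  refine ⟨t, fun x0 => (hR t x0).1 ?_⟩
  by_contra hx0
  have key : ∀ {u w : α} (p : T.Walk u w), u ∈ R t → w ∉ R t →
      ∃ c x, c ∈ R t ∧ x ∉ R t ∧ T.Adj c x := by
    intro u w p
    induction p with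
    | nil => exact fun h h' => absurd h h'
    | @cons a b _ hab _ ih =>
      intro h h'
      by_cases hb : b ∈ R t
      · exact ih hb h'
      · exact ⟨a, b, h, hb, hab⟩
  obtain ⟨p⟩ := hT.connected t x0
  obtain ⟨c, x, hc, hx, hcx⟩ := key p ((hR t t).2 (Or.inl rfl)) hx0
  have hct : c ≠ t := fun e => hx ((hR t x).2 (Or.inr (Or.inl (e ▸ hcx))))
  rcases (hR t c).1 hc with e | e | ⟨t', h1, h2⟩
  · exact hct e
  · exact hx ((hR t x).2 (Or.inr (Or.inr ⟨c, e, hcx⟩)))
  have hsub : R t ⊂ R t' := by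
    refine ⟨fun y hy => (hR t' y).2 ?_, fun hs => hx (hs ((hR t' x).2 (Or.inr (Or.inr ⟨c, h2, hcx⟩))))⟩
    rcases (hR t y).1 hy with e | e | ⟨b, b1, b2⟩
    · exact Or.inr (Or.inl (e ▸ h1.symm))
    · exact Or.inr (Or.inr ⟨t, h1.symm, e⟩)
    · by_cases e1 : t' = b
      · exact Or.inr (Or.inl (e1 ▸ b2))
      by_cases e2 : t = y
      · exact Or.inr (Or.inl (e2 ▸ h1.symm))
      exfalso
      have hp := path5 hT.isAcyclic hcx.symm h2.symm h1.symm b1 b2
        (fun e => hx (e ▸ (hR t t').2 (Or.inr (Or.inl h1)))) hct e1 e2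
      obtain ⟨q, hq, hl⟩ := hT.connected.exists_path_of_dist x y
      have := congrArg (fun z : T.Path x y => z.1.length) 
        ((hT.isAcyclic.subsingleton_path x y).elim ⟨_, hp⟩ ⟨q, hq⟩)
      have h4 := hd x y
      simp at this
      omega
  exact absurd (ht t' (mem_univ _)) (not_le.2 (card_lt_card hsub))

end tree

variable {α V : Type} [DecidableEq α] [DecidableEq V]

/-- Stars of sizes `s j`, `j ∈ J`, with centres adjacent to `w`, placed disjointly inside `U`. -/
def Sys (G : SimpleGraph V) (w : V) (s : α → ℕ) (J : Finset α) (U : Finset V) : Prop :=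
  ∃ (c : α → V) (L : α → Finset V), w ∉ U ∧ U.card ≤ J.card + ∑ j ∈ J, s j ∧
    ∀ j ∈ J, G.Adj w (c j) ∧ c j ∈ U ∧ L j ⊆ U ∧ (L j).card = s j ∧ (∀ x ∈ L j, G.Adj (c j) x) ∧
      ∀ j' ∈ J, c j' ∉ L j ∧ (j' ≠ j → c j' ≠ c j ∧ Disjoint (L j') (L j))

variable {G : SimpleGraph V} {w : V} {s : α → ℕ}

omit [DecidableEq α] [DecidableEq V] in
lemma Sys.empty (G : SimpleGraph V) (w : V) (s : α → ℕ) : Sys G w s ∅ ∅ :=
  ⟨fun _ => w, fun _ => ∅, by simp⟩

omit [DecidableEq α] [DecidableEq V] in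
lemma Sys.notMem {J : Finset α} {U : Finset V} (h : Sys G w s J U) : w ∉ U := by
  obtain ⟨_, _, h, -⟩ := h
  exact h

omit [DecidableEq α] [DecidableEq V] in
lemma Sys.card_le {J : Finset α} {U : Finset V} (h : Sys G w s J U) :
    U.card ≤ J.card + ∑ j ∈ J, s j := by
  obtain ⟨_, _, -, h, -⟩ := h
  exact h

lemma Sys.step {J : Finset α} {U : Finset V} (h : Sys G w s J U) {i : α} (hi : i ∉ J) {a : V}
    (ha : a ∉ U) (hw : G.Adj w a) {M : Finset V} (hM : ∀ x ∈ M, G.Adj a x ∧ x ∉ U ∧ x ≠ w)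
    (hc : M.card = s i) : Sys G w s (insert i J) (insert a (U ∪ M)) := by
  obtain ⟨c, L, h0, h1, h2⟩ := h
  have ne : ∀ j ∈ J, j ≠ i := fun j hj e => hi (e ▸ hj)
  refine ⟨Function.update c i a, Function.update L i M, ?_, ?_, ?_⟩
  · simp only [mem_insert, mem_union, not_or]
    exact ⟨hw.ne, h0, fun hm => (hM w hm).2.2 rfl⟩
  · rw [card_insert_of_notMem hi, sum_insert hi]
    have := card_insert_le a (U ∪ M)
    have := card_union_le U M
    omega
  · intro j hj
    rcases mem_insert.1 hj with rfl | hj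
    · simp only [Function.update_self]
      refine ⟨hw, mem_insert_self _ _, subset_union_right.trans (subset_insert _ _), hc,
        fun x hx => (hM x hx).1, fun j' hj' => ?_⟩
      rcases mem_insert.1 hj' with rfl | hj'
      · simp only [Function.update_self]
        exact ⟨fun hm => (hM a hm).1.ne rfl, fun e => absurd rfl e⟩
      · simp only [Function.update_of_ne (ne j' hj')]
        obtain ⟨-, k1, k2, -⟩ := h2 j' hj'
        exact ⟨fun hm => (hM _ hm).2.1 k1, fun _ => ⟨fun e => ha (e ▸ k1),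
          disjoint_left.2 fun x hx hm => (hM x hm).2.1 (k2 hx)⟩⟩
    · simp only [Function.update_of_ne (ne j hj)]
      obtain ⟨k0, k1, k2, k3, k4, k5⟩ := h2 j hj
      refine ⟨k0, mem_insert_of_mem (mem_union_left _ k1),
        k2.trans (subset_union_left.trans (subset_insert _ _)), k3, k4, fun j' hj' => ?_⟩
      rcases mem_insert.1 hj' with rfl | hj'
      · simp only [Function.update_self]
        exact ⟨fun hm => ha (k2 hm), fun _ => ⟨fun e => ha (e ▸ k1),
          disjoint_left.2 fun x hm hx => (hM x hm).2.1 (k2 hx)⟩⟩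
      · simp only [Function.update_of_ne (ne j' hj')]
        exact k5 j' hj'

omit [DecidableEq α] [DecidableEq V] in
lemma exists_inj_into [Nonempty V] {A : Finset α} {B : Finset V} (h : A.card ≤ B.card) :
    ∃ f : α → V, (∀ x ∈ A, f x ∈ B) ∧ Set.InjOn f A := by
  classical
  obtain ⟨e⟩ : Nonempty (A ↪ B) := Function.Embedding.nonempty_of_card_le (by simpa using h)
  refine ⟨fun x => if hx : x ∈ A then e ⟨x, hx⟩ else Classical.arbitrary V, fun x hx => ?_,
    fun x hx y hy hxy => ?_⟩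
  · simp only [dif_pos hx]
    exact (e ⟨x, hx⟩).2
  · simp only [dif_pos (mem_coe.1 hx), dif_pos (mem_coe.1 hy)] at hxy
    exact congrArg Subtype.val (e.injective (Subtype.ext hxy))

omit [DecidableEq α] [DecidableEq V] in
/-- If all systems of stars of the right total size exist, the tree is contained. -/
theorem contained_of_sys [Fintype α] {T : SimpleGraph α} (hT : T.IsTree)
    (hd : ∀ x y, T.dist x y ≤ 4)
    (h : ∀ (I : Finset α) (s : α → ℕ), I.card + ∑ j ∈ I, s j + 1 = Fintype.card α →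
      ∃ w U, Sys G w s I U) : T.IsContained G := by
  classical
  obtain ⟨t, ht⟩ := exists_centre hT hd
  have hp : ∀ x, ∃ c, x ≠ t → ¬ T.Adj t x → T.Adj t c ∧ T.Adj c x := fun x => by
    rcases ht x with e | e | ⟨c, e⟩
    · exact ⟨t, fun h => absurd e h⟩
    · exact ⟨t, fun _ h => absurd e h⟩
    · exact ⟨c, fun _ _ => e⟩
  choose par hpar using hp
  let O : Finset α := univ.filter fun x => x ≠ t ∧ ¬ T.Adj t x
  have hO : ∀ x, x ∈ O ↔ x ≠ t ∧ ¬ T.Adj t x := fun x => by simp [O]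
  let I := T.neighborFinset t
  have hI : ∀ x, x ∈ I ↔ T.Adj t x := fun x => by simp [I]
  have hparI : ∀ x ∈ O, par x ∈ I := fun x hx =>
    (hI _).2 (hpar x ((hO x).1 hx).1 ((hO x).1 hx).2).1
  obtain ⟨w, U, c, L, k0, -, k2⟩ := h I (fun j => (O.filter fun x => par x = j).card) (by
    rw [← card_eq_sum_card_fiberwise hparI, ← card_univ]
    have : (univ : Finset α) = insert t (I ∪ O) := by
      ext x
      simp only [mem_univ, mem_insert, mem_union, hI, hO, true_iff]
      tauto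
    rw [this, card_insert_of_notMem (by simp [hI, hO]), card_union_of_disjoint]
    exact disjoint_left.2 fun x hx hx' => ((hO x).1 hx').2 ((hI x).1 hx))
  have h2 := fun j (hj : j ∈ I) =>
    And.intro (k2 j hj) (show w ∉ L j from fun hm => k0 ((k2 j hj).2.2.1 hm))
  have : Nonempty V := ⟨w⟩
  have hg : ∀ j, ∃ g : α → V, j ∈ I → (∀ x ∈ O.filter fun x => par x = j, g x ∈ L j) ∧
      Set.InjOn g (O.filter fun x => par x = j) := fun j => by
    by_cases hj : j ∈ I
    · obtain ⟨g, hg⟩ := exists_inj_into (A := O.filter fun x => par x = j) (B := L j)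
        (h2 j hj).1.2.2.2.1.ge
      exact ⟨g, fun _ => hg⟩
    · exact ⟨fun _ => w, fun h => absurd h hj⟩
  choose g hg using hg
  let φ : α → V := fun x => if x = t then w else if T.Adj t x then c x else g (par x) x
  have φt : φ t = w := if_pos rfl
  have φI : ∀ x, T.Adj t x → φ x = c x := fun x hx => by
    simp only [φ, if_neg hx.ne', if_pos hx]
  have φO : ∀ x ∈ O, φ x = g (par x) x := fun x hx => by
    simp only [φ, if_neg ((hO x).1 hx).1, if_neg ((hO x).1 hx).2]
  have φL : ∀ x ∈ O, φ x ∈ L (par x) := fun x hx => by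
    rw [φO x hx]
    exact (hg _ (hparI x hx)).1 x (mem_filter.2 ⟨hx, rfl⟩)
  have tri : ∀ x, x = t ∨ T.Adj t x ∨ x ∈ O := fun x => by
    rw [hO]
    tauto
  have adjIO : ∀ x y, T.Adj t x → y ∈ O → T.Adj x y → G.Adj (φ x) (φ y) := by
    intro x y hx hy hxy
    obtain ⟨y1, y2⟩ := (hO y).1 hy
    have e : par y = x := by
      by_contra e
      exact nb4 hT.isAcyclic (hpar y y1 y2).1 (hpar y y1 y2).2 hxy.symm hx.symm y1 e
    rw [φI x hx]
    exact (h2 x ((hI x).2 hx)).1.2.2.2.2.1 _ (e ▸ φL y hy)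
  refine ⟨⟨⟨φ, fun {x y} hxy => ?_⟩, fun x y hxy => ?_⟩⟩
  · rcases tri x with rfl | hx | hx
    · rw [φt, φI y hxy]
      exact (h2 y ((hI y).2 hxy)).1.1
    · rcases tri y with rfl | hy | hy
      · rw [φt, φI x hx]
        exact (h2 x ((hI x).2 hx)).1.1.symm
      · exact (nb3 hT.isAcyclic hx hxy hy.symm).elim
      · exact adjIO x y hx hy hxy
    · obtain ⟨x1, x2⟩ := (hO x).1 hx
      rcases tri y with rfl | hy | hy
      · exact absurd hxy.symm x2
      · exact (adjIO y x hy hx hxy.symm).symm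
      · obtain ⟨y1, y2⟩ := (hO y).1 hy
        have := path5 hT.isAcyclic (hpar x x1 x2).1 (hpar x x1 x2).2 hxy (hpar y y1 y2).2.symm
          (hpar y y1 y2).1.symm x1.symm (fun e => y2 (e ▸ (hpar x x1 x2).1))
          (fun e => x2 (e ▸ (hpar y y1 y2).1)) y1
        simp at this
  · change φ x = φ y at hxy
    have tI : ∀ y, T.Adj t y → φ t ≠ φ y := fun y hy => by
      rw [φt, φI y hy]
      exact (h2 y ((hI y).2 hy)).1.1.ne
    have tO : ∀ y ∈ O, φ t ≠ φ y := fun y hy e =>
      (h2 _ (hparI y hy)).2 (φt ▸ e ▸ φL y hy)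
    have IO : ∀ x, T.Adj t x → ∀ y ∈ O, φ x ≠ φ y := fun x hx y hy e =>
      ((h2 _ (hparI y hy)).1.2.2.2.2.2 x ((hI x).2 hx)).1 (φI x hx ▸ e ▸ φL y hy)
    rcases tri x with rfl | hx | hx <;> rcases tri y with rfl | hy | hy
    · rfl
    · exact absurd hxy (tI y hy)
    · exact absurd hxy (tO y hy)
    · exact absurd hxy.symm (tI x hx)
    · by_contra e
      rw [φI x hx, φI y hy] at hxy
      exact (((h2 y ((hI y).2 hy)).1.2.2.2.2.2 x ((hI x).2 hx)).2 e).1 hxy
    · exact absurd hxy (IO x hx y hy)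
    · exact absurd hxy.symm (tO x hx)
    · exact absurd hxy.symm (IO y hy x hx)
    · by_cases e : par x = par y
      · rw [φO x hx, φO y hy, e] at hxy
        exact (hg _ (hparI y hy)).2 (by simp [hx, e]) (by simp [hy]) hxy
      · exact absurd (hxy ▸ φL y hy) (disjoint_left.1
          (((h2 _ (hparI y hy)).1.2.2.2.2.2 _ (hparI x hx)).2 e).2 (φL x hx))

end Pool.Agent.P.MP_a0dde7_co
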