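import Pool.Agent.P.MP_a0dde7_co.Rad

/-! Systems of stars exist when the maximum degree is quadratic. -/

set_option autoImplicit false

namespace Pool.Agent.P.MP_a0dde7_co

open SimpleGraph Finset

variable {α V : Type} [DecidableEq α] [DecidableEq V] [Fintype V] {G : SimpleGraph V}
  [DecidableRel G.Adj] {s : α → ℕ} {δ : ℕ}

lemma pick (a : V) (F : Finset V) {m : ℕ} (h : (F.filter (G.Adj a)).card + m ≤ G.degree a) :
    ∃ M : Finset V, (∀ x ∈ M, G.Adj a x ∧ x ∉ F) ∧ M.card = m := by
  have h1 : m ≤ (G.neighborFinset a \ F).card := by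
    have := card_sdiff_add_card_inter (G.neighborFinset a) F
    have e : G.neighborFinset a ∩ F = F.filter (G.Adj a) := by
      ext x
      simp [and_comm]
    rw [e, card_neighborFinset_eq_degree] at this
    omega
  obtain ⟨M, hM, hc⟩ := exists_subset_card_eq h1
  exact ⟨M, fun x hx => by simpa using hM hx, hc⟩

lemma pick' (a : V) (F : Finset V) {m : ℕ} (h : F.card + m ≤ G.degree a) :
    ∃ M : Finset V, (∀ x ∈ M, G.Adj a x ∧ x ∉ F) ∧ M.card = m :=
  pick a F (le_trans (Nat.add_le_add_right (card_filter_le _ _) _) h)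

lemma pick1 (a : V) (F : Finset V) (h : F.card < G.degree a) : ∃ x, G.Adj a x ∧ x ∉ F := by
  obtain ⟨M, hM, hc⟩ := pick' (G := G) a F (m := 1) h
  obtain ⟨x, hx⟩ := card_pos.1 (by omega : 0 < M.card)
  exact ⟨x, hM x hx⟩

/-- Stars whose centres are sent to vertices of large degree are completed last. -/
lemma greedy (hmin : ∀ u, δ ≤ G.degree u) (w : V) {I I0 : Finset α} (hsub : I0 ⊆ I) (ψ : α → V)
    (hψ : Set.InjOn ψ I0) (hbig : ∀ j ∈ I0, G.Adj w (ψ j) ∧ 2 * δ ≤ G.degree (ψ j))
    (htot : I.card + ∑ j ∈ I, s j ≤ 2 * δ)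
    (h : I.card + ∑ j ∈ I \ I0, s j ≤ δ ∨ (2 * δ ≤ G.degree w ∧ ∀ j ∈ I \ I0, s j = 0)) :
    ∃ U, Sys G w s I U := by
  have hZ : (I0.image ψ).card ≤ I0.card := card_image_le
  have hI : (I \ I0).card + I0.card = I.card := card_sdiff_add_card_eq_card hsub
  have p1 : ∀ J : Finset α, J ⊆ I \ I0 → ∃ U, Sys G w s J U ∧ Disjoint U (I0.image ψ) := by
    intro J
    induction J using Finset.induction_on with
    | empty => exact fun _ => ⟨∅, Sys.empty G w s, disjoint_empty_left _⟩
    | insert i J hi ih =>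
      intro hJ
      obtain ⟨U, hU, hd⟩ := ih ((subset_insert _ _).trans hJ)
      have c1 := hU.card_le
      have c2 := card_le_card hJ
      have c3 : ∑ j ∈ insert i J, s j ≤ ∑ j ∈ I \ I0, s j := sum_le_sum_of_subset hJ
      rw [card_insert_of_notMem hi] at c2
      rw [sum_insert hi] at c3
      have c4 := card_union_le U (I0.image ψ)
      have c5 : (∀ j ∈ I \ I0, s j = 0) → ∑ j ∈ I \ I0, s j = 0 := fun h => sum_eq_zero h
      obtain ⟨a, ha, ha'⟩ := pick1 (G := G) w (U ∪ I0.image ψ) (by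
        have := hmin w
        rcases h with h | ⟨h, h'⟩
        · omega
        · have := c5 h'
          omega)
      obtain ⟨M, hM, hc⟩ : ∃ M : Finset V,
          (∀ x ∈ M, G.Adj a x ∧ x ∉ insert w (U ∪ I0.image ψ)) ∧ M.card = s i := by
        rcases h with h | ⟨-, h'⟩
        · refine pick' a _ ?_
          have := hmin a
          have := card_insert_le w (U ∪ I0.image ψ)
          omega
        · exact ⟨∅, by simp, (h' i (hJ (mem_insert_self _ _))).symm⟩
      simp only [mem_insert, mem_union, not_or] at hM ha'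
      refine ⟨_, hU.step hi ha'.1 ha (fun x hx => ⟨(hM x hx).1, (hM x hx).2.2.1, (hM x hx).2.1⟩) hc,
        ?_⟩
      rw [disjoint_insert_left, disjoint_union_left]
      exact ⟨ha'.2, hd, disjoint_left.2 fun x hx => (hM x hx).2.2.2⟩
  have p2 : ∀ J : Finset α, J ⊆ I0 →
      ∃ U, Sys G w s ((I \ I0) ∪ J) U ∧ Disjoint U ((I0 \ J).image ψ) := by
    intro J
    induction J using Finset.induction_on with
    | empty => exact fun _ => by simpa using p1 _ Subset.rfl
    | insert i J hi ih =>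
      intro hJ
      obtain ⟨U, hU, hd⟩ := ih ((subset_insert _ _).trans hJ)
      have hi0 : i ∈ I0 := hJ (mem_insert_self _ _)
      have hi' : i ∉ (I \ I0) ∪ J := by simp [hi, hi0]
      have hs' : insert i ((I \ I0) ∪ J) ⊆ I :=
        insert_subset (hsub hi0) (union_subset sdiff_subset
          (((subset_insert _ _).trans hJ).trans hsub))
      have c1 := hU.card_le
      have c2 := card_union_le (I \ I0) J
      have c3 : ∑ j ∈ insert i ((I \ I0) ∪ J), s j ≤ ∑ j ∈ I, s j := sum_le_sum_of_subset hs'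
      rw [sum_insert hi'] at c3
      have c4 : ((I0 \ insert i J).image ψ).card ≤ (I0 \ insert i J).card := card_image_le
      have c5 := card_sdiff_add_card_eq_card hJ
      rw [card_insert_of_notMem hi] at c5
      obtain ⟨M, hM, hc⟩ := pick' (G := G) (ψ i) (insert w (U ∪ (I0 \ insert i J).image ψ))
        (m := s i) (by
          have := (hbig i hi0).2
          have := card_insert_le w (U ∪ (I0 \ insert i J).image ψ)
          have := card_union_le U ((I0 \ insert i J).image ψ)
          omega)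
      simp only [mem_insert, mem_union, not_or] at hM
      refine ⟨_, union_insert i (I \ I0) J ▸ hU.step hi'
        (fun hm => disjoint_left.1 hd hm (mem_image_of_mem ψ (mem_sdiff.2 ⟨hi0, hi⟩)))
        (hbig i hi0).1 (fun x hx => ⟨(hM x hx).1, (hM x hx).2.2.1, (hM x hx).2.1⟩) hc, ?_⟩
      rw [disjoint_insert_left, disjoint_union_left]
      refine ⟨fun hm => ?_, hd.mono_right (image_subset_image (sdiff_subset_sdiff Subset.rfl
        (subset_insert _ _))), disjoint_left.2 fun x hx => (hM x hx).2.2.2⟩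
      obtain ⟨j, hj, e⟩ := mem_image.1 hm
      have := hψ (mem_sdiff.1 hj).1 hi0 e
      exact (mem_sdiff.1 hj).2 (this ▸ mem_insert_self _ _)
  obtain ⟨U, hU, -⟩ := p2 I0 Subset.rfl
  exact ⟨U, by rwa [sdiff_union_of_subset hsub] at hU⟩

/-- The exceptional tree: two stars of the largest size. -/
lemma two_stars (hmin : ∀ u, δ ≤ G.degree u) (v : V) (hv : 2 * δ ≤ G.degree v) (A : Finset V)
    (hA : ∀ a ∈ A, G.Adj v a ∧ G.degree a < 2 * δ) (hc : δ * δ + 3 * δ < A.card) {i j : α}
    (hij : j ≠ i) (hi : s i + 1 = δ) (hj : s j + 1 = δ) : ∃ w U, Sys G w s {j, i} U := by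
  have hji : j ∉ ({i} : Finset α) := by simpa using hij
  by_cases h : ∃ a u, G.Adj v a ∧ G.Adj a u ∧ u ≠ v ∧ δ + 1 ≤ G.degree u
  · obtain ⟨a, u, h1, h2, h3, h4⟩ := h
    obtain ⟨M, hM, hc⟩ := pick' (G := G) u {a, v} (m := s i) (by
      have := card_le_two (a := a) (b := v)
      omega)
    simp only [mem_insert, mem_singleton, not_or] at hM
    have S1 := (Sys.empty G a s).step (notMem_empty i) (notMem_empty u) h2
      (fun x hx => ⟨(hM x hx).1, notMem_empty x, (hM x hx).2.1⟩) hc
    have c1 := S1.card_le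
    obtain ⟨M', hM', hc'⟩ := pick' (G := G) v (insert a (insert u (∅ ∪ M))) (m := s j) (by
      have := card_insert_le a (insert u (∅ ∪ M))
      simp only [insert_empty_eq, card_singleton, sum_singleton] at c1
      omega)
    exact ⟨a, _, S1.step hji (a := v) (by
      simp only [empty_union, mem_insert, not_or]
      exact ⟨h3.symm, fun hm => (hM v hm).2.2 rfl⟩) h1.symm (fun x hx => ⟨(hM' x hx).1,
        fun hm => (hM' x hx).2 (mem_insert_of_mem hm),
        fun e => (hM' x hx).2 (e ▸ mem_insert_self _ _)⟩) hc'⟩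
  · push Not at h
    obtain ⟨a, ha⟩ := card_pos.1 (by omega : 0 < A.card)
    obtain ⟨M, hM, hcM⟩ := pick' (G := G) a {v} (m := s i) (by
      have := hmin a
      rw [card_singleton]
      omega)
    simp only [mem_singleton] at hM
    have S1 := (Sys.empty G v s).step (notMem_empty i) (notMem_empty a) (hA a ha).1
      (fun x hx => ⟨(hM x hx).1, notMem_empty x, (hM x hx).2⟩) hcM
    have c1 := S1.card_le
    simp only [insert_empty_eq, card_singleton, sum_singleton] at c1
    have c2 : (M.biUnion fun u => G.neighborFinset u).card ≤ M.card * δ :=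
      card_biUnion_le_card_mul _ _ _ fun u hu => by
        have := h a u (hA a ha).1 (hM u hu).1 (hM u hu).2
        rw [card_neighborFinset_eq_degree]
        omega
    obtain ⟨b, hb, hb'⟩ := exists_mem_notMem_of_card_lt_card (t := A)
      (s := insert a (∅ ∪ M) ∪ (G.neighborFinset a ∪ M.biUnion fun u => G.neighborFinset u)) (by
        have := card_union_le (insert a (∅ ∪ M))
          (G.neighborFinset a ∪ M.biUnion fun u => G.neighborFinset u)
        have := card_union_le (G.neighborFinset a) (M.biUnion fun u => G.neighborFinset u)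
        have := (hA a ha).2
        have := card_neighborFinset_eq_degree G a
        have : M.card * δ ≤ δ * δ := Nat.mul_le_mul_right _ (by omega)
        omega)
    rw [mem_union, mem_union, not_or, not_or] at hb'
    obtain ⟨M', hM', hc'⟩ := pick (G := G) b (insert v (insert a (∅ ∪ M))) (m := s j) (by
      have : (insert v (insert a (∅ ∪ M))).filter (G.Adj b) ⊆ {v} := by
        intro x hx
        simp only [empty_union, mem_filter, mem_insert] at hx
        rcases hx with ⟨rfl | rfl | hx, hx'⟩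
        · exact mem_singleton_self _
        · exact absurd ((mem_neighborFinset _ _ _).2 hx'.symm) hb'.2.1
        · exact absurd (mem_biUnion.2 ⟨x, hx, (mem_neighborFinset _ _ _).2 hx'.symm⟩) hb'.2.2
      have := card_le_card this
      have := hmin b
      rw [card_singleton] at *
      omega)
    exact ⟨v, _, S1.step hji hb'.1 (hA b hb).1 (fun x hx => ⟨(hM' x hx).1,
      fun hm => (hM' x hx).2 (mem_insert_of_mem hm),
      fun e => (hM' x hx).2 (e ▸ mem_insert_self _ _)⟩) hc'⟩

lemma arith {δ σ g n S s b P : ℕ} (hg : g + σ = δ) (hg1 : 1 ≤ g) (F1 : 2 * b + P ≤ 2 * S)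
    (F2 : P ≤ n + S) (F3 : n + 1 + S + s ≤ 2 * δ)
    (F4 : S + s < δ ∨ (g ≤ n ∧ g * s < δ)) (F5 : n * s ≤ S)
    (F6 : n = 1 → S < δ ∧ s + 2 ≤ δ) :
    1 ≤ max (σ + 1 - s) (δ - s - b) ∧ 2 * P ≤ max (σ + 1 - s) (δ - s - b) * (δ + 28) := by
  obtain ⟨μ, hμ⟩ : ∃ μ, μ = max (σ + 1 - s) (δ - s - b) := ⟨_, rfl⟩
  rw [← hμ]
  have m1 : σ + 1 - s ≤ μ := hμ ▸ le_max_left _ _
  have m2 : δ - s - b ≤ μ := hμ ▸ le_max_right _ _
  rcases F4 with h | ⟨h, h'⟩
  · exact ⟨by omega, by nlinarith [show P + 2 ≤ 2 * μ by omega]⟩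
  · have hs : s ≤ σ := by
      by_contra hh
      have : g * (σ + 1) ≤ g * s := Nat.mul_le_mul_left _ (by omega)
      nlinarith
    have h1 : 1 ≤ μ := by omega
    refine ⟨h1, ?_⟩
    by_cases h4 : 4 ≤ μ
    · nlinarith [show P ≤ 2 * δ by omega]
    by_cases h5 : σ ≤ 5
    · nlinarith [show P ≤ 14 by omega]
    have hg' : g = 1 := by
      by_contra hh
      obtain ⟨g', rfl⟩ : ∃ g', g = g' + 2 := ⟨g - 2, by omega⟩
      nlinarith [show 4 ≤ s by omega, show σ ≤ s + 2 by omega]
    have hn : n = 1 := by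
      by_contra hh
      have : 2 * s ≤ n * s := Nat.mul_le_mul_right _ (by omega)
      omega
    obtain ⟨k1, k2⟩ := F6 hn
    nlinarith [show 2 ≤ μ by omega, show P ≤ δ by omega]

/-- One more star with centre adjacent to `v`. -/
lemma main_step (hmin : ∀ u, δ ≤ G.degree u) {v : V} (hv : 2 * δ ≤ G.degree v) (A : Finset V)
    (hA : ∀ a ∈ A, G.Adj v a ∧ G.degree a < 2 * δ) (hc : δ * δ + 30 * δ < A.card) {σ : ℕ}
    (hσ : ∀ a ∈ A, σ ≤ ((G.neighborFinset a).filter fun u => G.degree u < 2 * δ).card)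
    {J : Finset α} {U Pol : Finset V} (hU : Sys G v s J U) (hU2 : U.card ≤ 2 * δ)
    (p1 : ∀ u ∈ Pol, u ∈ U ∧ G.degree u < 2 * δ)
    (p2 : ∀ a, a ∉ U → G.degree a < 2 * δ → ∀ u ∈ U, G.Adj a u → u ∈ Pol ∨ 2 * δ ≤ G.degree u)
    {i : α} (hi : i ∉ J) (hs : s i ≠ 0) {μ : ℕ}
    (hμ : μ = max (σ + 1 - s i) (δ - s i - (U.filter fun u => 2 * δ ≤ G.degree u).card))
    (h1 : 1 ≤ μ) (h2 : 2 * Pol.card ≤ μ * (δ + 28)) :
    ∃ U' Pol' : Finset V, Sys G v s (insert i J) U' ∧ (∀ u ∈ Pol', u ∈ U' ∧ G.degree u < 2 * δ) ∧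
      (∀ a, a ∉ U' → G.degree a < 2 * δ → ∀ u ∈ U', G.Adj a u → u ∈ Pol' ∨ 2 * δ ≤ G.degree u) ∧
      2 * (U'.filter fun u => 2 * δ ≤ G.degree u).card + Pol'.card ≤
        2 * (U.filter fun u => 2 * δ ≤ G.degree u).card + Pol.card + 2 * s i := by
  let bad := A.filter fun a => μ ≤ (Pol.filter (G.Adj a)).card
  have hbad : bad.card * μ ≤ Pol.card * (2 * δ) :=
    card_mul_le_card_mul (fun a u => G.Adj a u) (fun a ha => (mem_filter.1 ha).2) fun u hu => by
      refine le_trans (card_le_card (t := G.neighborFinset u) fun x hx => ?_) ?_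
      · exact (mem_neighborFinset _ _ _).2 (mem_filter.1 hx).2.symm
      · rw [card_neighborFinset_eq_degree]
        exact (p1 u hu).2.le
  have hbad' : bad.card ≤ δ * (δ + 28) := by
    refine Nat.le_of_mul_le_mul_right ?_ h1
    nlinarith
  obtain ⟨a, ha, ha'⟩ := exists_mem_notMem_of_card_lt_card (t := A) (s := U ∪ bad) (by
    have := card_union_le U bad
    nlinarith)
  rw [mem_union, not_or] at ha'
  have hp : (Pol.filter (G.Adj a)).card < μ := not_le.1 fun h => ha'.2 (mem_filter.2 ⟨ha, h⟩)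
  obtain ⟨hva, hda⟩ := hA a ha
  let N1 := ((G.neighborFinset a).filter fun u => G.degree u < 2 * δ) \ U
  have hN1 : ∀ x, x ∈ N1 ↔ (G.Adj a x ∧ G.degree x < 2 * δ) ∧ x ∉ U := fun x => by simp [N1]
  have hsm : ((G.neighborFinset a).filter fun u => G.degree u < 2 * δ) ⊆
      N1 ∪ Pol.filter (G.Adj a) := by
    intro x hx
    rw [mem_filter, mem_neighborFinset] at hx
    by_cases hxU : x ∈ U
    · exact mem_union_right _ (mem_filter.2
        ⟨(p2 a ha'.1 hda x hxU hx.1).resolve_right (not_le.2 hx.2), hx.1⟩)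
    · exact mem_union_left _ ((hN1 x).2 ⟨hx, hxU⟩)
  by_cases hcase : s i ≤ N1.card
  · obtain ⟨M, hM, hcM⟩ := exists_subset_card_eq hcase
    have hM' := fun x (hx : x ∈ M) => (hN1 x).1 (hM hx)
    refine ⟨_, insert a (Pol ∪ M), hU.step hi ha'.1 hva (fun x hx => ⟨(hM' x hx).1.1, (hM' x hx).2,
      fun e => absurd (e ▸ (hM' x hx).1.2) (not_lt.2 hv)⟩) hcM, fun u hu => ?_,
      fun a' h' hd' u hu hadj => ?_, ?_⟩
    · simp only [mem_insert, mem_union] at hu ⊢
      rcases hu with rfl | hu | hu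
      · exact ⟨Or.inl rfl, hda⟩
      · exact ⟨Or.inr (Or.inl (p1 u hu).1), (p1 u hu).2⟩
      · exact ⟨Or.inr (Or.inr hu), (hM' u hu).1.2⟩
    · simp only [mem_insert, mem_union, not_or] at hu h' ⊢
      rcases hu with rfl | hu | hu
      · exact Or.inl (Or.inl rfl)
      · exact (p2 a' h'.2.1 hd' u hu hadj).imp_left fun h => Or.inr (Or.inl h)
      · exact Or.inl (Or.inr (Or.inr hu))
    · have e : ((insert a (U ∪ M)).filter fun u => 2 * δ ≤ G.degree u) ⊆
          U.filter fun u => 2 * δ ≤ G.degree u := by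
        intro x hx
        simp only [mem_filter, mem_insert, mem_union] at hx ⊢
        rcases hx with ⟨rfl | hx | hx, hx'⟩
        · omega
        · exact ⟨hx, hx'⟩
        · have := (hM' x hx).1.2
          omega
      have := card_le_card e
      have := card_insert_le a (Pol ∪ M)
      have := card_union_le Pol M
      omega
  · have c1 := (hσ a ha).trans ((card_le_card hsm).trans (card_union_le _ _))
    have c2 : (U.filter fun u => 2 * δ ≤ G.degree u).card + (Pol.filter (G.Adj a)).card + s i <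
        δ := by
      rcases max_cases (σ + 1 - s i) (δ - s i - (U.filter fun u => 2 * δ ≤ G.degree u).card) with
        h | h <;> omega
    obtain ⟨M, hM, hcM⟩ := pick (G := G) a (insert v (U ∪ N1)) (m := s i - N1.card) (by
      have e : (insert v (U ∪ N1)).filter (G.Adj a) ⊆ insert v
          ((U.filter fun u => 2 * δ ≤ G.degree u) ∪ (N1 ∪ Pol.filter (G.Adj a))) := by
        intro x hx
        rw [mem_filter, mem_insert, mem_union] at hx
        rcases hx with ⟨rfl | hx | hx, hx'⟩
        · exact mem_insert_self _ _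
        · refine mem_insert_of_mem ?_
          rcases p2 a ha'.1 hda x hx hx' with h | h
          · exact mem_union_right _ (mem_union_right _ (mem_filter.2 ⟨h, hx'⟩))
          · exact mem_union_left _ (mem_filter.2 ⟨hx, h⟩)
        · exact mem_insert_of_mem (mem_union_right _ (mem_union_left _ hx))
      have := card_le_card e
      have := card_insert_le v
        ((U.filter fun u => 2 * δ ≤ G.degree u) ∪ (N1 ∪ Pol.filter (G.Adj a)))
      have := card_union_le (U.filter fun u => 2 * δ ≤ G.degree u) (N1 ∪ Pol.filter (G.Adj a))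
      have := card_union_le N1 (Pol.filter (G.Adj a))
      have := hmin a
      omega)
    simp only [mem_insert, mem_union, not_or] at hM
    have hMb : ∀ x ∈ M, 2 * δ ≤ G.degree x := fun x hx => not_lt.1 fun h =>
      (hM x hx).2.2.2 ((hN1 x).2 ⟨⟨(hM x hx).1, h⟩, (hM x hx).2.2.1⟩)
    refine ⟨_, Pol ∪ N1, hU.step hi ha'.1 hva (M := N1 ∪ M) (fun x hx => ?_) ?_, fun u hu => ?_,
      fun a' h' hd' u hu hadj => ?_, ?_⟩
    · rcases mem_union.1 hx with hx | hx
      · have := (hN1 x).1 hx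
        exact ⟨this.1.1, this.2, fun e => absurd (e ▸ this.1.2) (not_lt.2 hv)⟩
      · exact ⟨(hM x hx).1, (hM x hx).2.2.1, (hM x hx).2.1⟩
    · rw [card_union_of_disjoint (disjoint_right.2 fun x hx => (hM x hx).2.2.2)]
      omega
    · simp only [mem_insert, mem_union] at hu ⊢
      rcases hu with hu | hu
      · exact ⟨Or.inr (Or.inl (p1 u hu).1), (p1 u hu).2⟩
      · exact ⟨Or.inr (Or.inr (Or.inl hu)), ((hN1 u).1 hu).1.2⟩
    · simp only [mem_insert, mem_union, not_or] at hu h' ⊢
      rcases hu with rfl | hu | hu | hu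
      · exact absurd ((hN1 a').2 ⟨⟨hadj.symm, hd'⟩, h'.2.1⟩) h'.2.2.1
      · exact (p2 a' h'.2.1 hd' u hu hadj).imp_left Or.inl
      · exact Or.inl (Or.inr hu)
      · exact Or.inr (hMb u hu)
    · have e : ((insert a (U ∪ (N1 ∪ M))).filter fun u => 2 * δ ≤ G.degree u) ⊆
          (U.filter fun u => 2 * δ ≤ G.degree u) ∪ M := by
        intro x hx
        simp only [mem_filter, mem_insert, mem_union] at hx ⊢
        rcases hx with ⟨rfl | hx | hx | hx, hx'⟩
        · omega
        · exact Or.inl ⟨hx, hx'⟩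
        · have := ((hN1 x).1 hx).1.2
          omega
        · exact Or.inr hx
      have := card_le_card e
      have := card_union_le (U.filter fun u => 2 * δ ≤ G.degree u) M
      have := card_union_le Pol N1
      omega

/-- All systems of stars of total size at most `2 δ` exist. -/
theorem exists_sys (hmin : ∀ u, δ ≤ G.degree u) (v : V) (hv : δ * δ + 31 * δ ≤ G.degree v)
    (I : Finset α) (s : α → ℕ) (htot : I.card + ∑ j ∈ I, s j ≤ 2 * δ) : ∃ w U, Sys G w s I U := by
  have : Nonempty V := ⟨v⟩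
  have hv2 : 2 * δ ≤ G.degree v := by omega
  let A := (G.neighborFinset v).filter fun u => G.degree u < 2 * δ
  have hA : ∀ a ∈ A, G.Adj v a ∧ G.degree a < 2 * δ := fun a ha => by simpa [A] using ha
  have split : ∀ a, ((G.neighborFinset a).filter fun u => G.degree u < 2 * δ).card +
      ((G.neighborFinset a).filter fun u => ¬ G.degree u < 2 * δ).card = G.degree a := fun a => by
    rw [card_filter_add_card_filter_not, card_neighborFinset_eq_degree]
  by_cases hB : δ ≤ ((G.neighborFinset v).filter fun u => ¬ G.degree u < 2 * δ).card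
  · have c1 : (I.filter fun j => s j ≠ 0).card ≤ ∑ j ∈ I, s j := by
      rw [card_eq_sum_ones]
      exact (sum_le_sum fun j hj => Nat.one_le_iff_ne_zero.2 (mem_filter.1 hj).2).trans
        (sum_le_sum_of_subset (filter_subset _ _))
    have c2 := card_filter_le I fun j => s j ≠ 0
    obtain ⟨ψ, h1, h2⟩ := exists_inj_into (A := I.filter fun j => s j ≠ 0)
      (B := (G.neighborFinset v).filter fun u => ¬ G.degree u < 2 * δ) (by omega)
    exact ⟨v, greedy hmin v (filter_subset _ _) ψ h2 (fun j hj => by simpa using h1 j hj) htot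
      (Or.inr ⟨hv2, fun j hj => by
        simp only [mem_sdiff, mem_filter, not_and, not_not] at hj
        exact hj.2 hj.1⟩)⟩
  have hc : δ * δ + 30 * δ < A.card := by
    have := split v
    change A.card + _ = _ at this
    omega
  obtain ⟨a0, ha0, hm⟩ := exists_min_image A
    (fun a => ((G.neighborFinset a).filter fun u => G.degree u < 2 * δ).card)
    (card_pos.1 (by omega))
  obtain ⟨σ, hσ⟩ : ∃ σ, σ = min ((G.neighborFinset a0).filter fun u => G.degree u < 2 * δ).card
    (δ - 1) := ⟨_, rfl⟩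
  have hσ1 : ∀ a ∈ A, σ ≤ ((G.neighborFinset a).filter fun u => G.degree u < 2 * δ).card :=
    fun a ha => (hσ ▸ min_le_left _ _ : σ ≤ _).trans (hm a ha)
  have hσ2 : σ < δ := by omega
  have hg : δ - σ ≤ ((G.neighborFinset a0).filter fun u => ¬ G.degree u < 2 * δ).card := by
    have := split a0
    have := hmin a0
    have : 0 < ((G.neighborFinset a0).filter fun u => ¬ G.degree u < 2 * δ).card :=
      card_pos.2 ⟨v, mem_filter.2 ⟨(mem_neighborFinset _ _ _).2 (hA a0 ha0).1.symm, by omega⟩⟩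
    omega
  clear hσ
  by_cases h2 : ∃ J ⊆ I, J.card ≤ δ - σ ∧ δ ≤ ∑ j ∈ J, s j
  · obtain ⟨J, hJ, k1, k2⟩ := h2
    obtain ⟨ψ, h1, h2⟩ := exists_inj_into (A := J)
      (B := (G.neighborFinset a0).filter fun u => ¬ G.degree u < 2 * δ) (k1.trans hg)
    refine ⟨a0, greedy hmin a0 hJ ψ h2 (fun j hj => by simpa using h1 j hj) htot (Or.inl ?_)⟩
    have := sum_sdiff (f := s) hJ
    omega
  push Not at h2
  by_cases h3 : ∃ i ∈ I, ∃ j ∈ I, j ≠ i ∧ s i + 1 = δ ∧ s j + 1 = δ
  · obtain ⟨i, hi, j, hj, hij, k1, k2⟩ := h3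
    have hsub : ({j, i} : Finset α) ⊆ I := by simp [insert_subset_iff, hi, hj]
    have c1 : ∑ x ∈ ({j, i} : Finset α), s x ≤ ∑ x ∈ I, s x := sum_le_sum_of_subset hsub
    rw [sum_pair hij] at c1
    rw [← eq_of_subset_of_card_le hsub (by rw [card_pair hij]; omega)]
    exact two_stars hmin v hv2 A hA (by omega) hij k1 k2
  push Not at h3
  have key : ∀ n ≤ I.card, ∃ J ⊆ I, J.card = n ∧ (∀ j ∈ J, ∀ i ∈ I, i ∉ J → s i ≤ s j) ∧
      ∃ U, Sys G v s J U ∧ ((∀ j ∈ J, s j ≠ 0) → ∃ Pol : Finset V,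
        (∀ u ∈ Pol, u ∈ U ∧ G.degree u < 2 * δ) ∧
        (∀ a, a ∉ U → G.degree a < 2 * δ → ∀ u ∈ U, G.Adj a u → u ∈ Pol ∨ 2 * δ ≤ G.degree u) ∧
        2 * (U.filter fun u => 2 * δ ≤ G.degree u).card + Pol.card ≤ 2 * ∑ j ∈ J, s j) := by
    intro n
    induction n with
    | zero => exact fun _ => ⟨∅, empty_subset _, rfl, by simp, ∅, Sys.empty G v s,
        fun _ => ⟨∅, by simp⟩⟩
    | succ n ih =>
      intro hn
      obtain ⟨J, hJ, rfl, hup, U, hU, hP⟩ := ih (by omega)
      clear ih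
      obtain ⟨i, hi, hmax⟩ := exists_max_image (I \ J) s (by
        rw [← card_pos, card_sdiff_of_subset hJ]
        omega)
      obtain ⟨hiI, hiJ⟩ := mem_sdiff.1 hi
      have hs' : insert i J ⊆ I := insert_subset hiI hJ
      have c1 := hU.card_le
      have c2 : ∑ j ∈ insert i J, s j ≤ ∑ j ∈ I, s j := sum_le_sum_of_subset hs'
      rw [sum_insert hiJ] at c2
      refine ⟨insert i J, hs', card_insert_of_notMem hiJ, fun j hj i' hi' hn' => ?_, ?_⟩
      · rw [mem_insert, not_or] at hn'
        rcases mem_insert.1 hj with rfl | hj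
        · exact hmax i' (mem_sdiff.2 ⟨hi', hn'.2⟩)
        · exact hup j hj i' hi' hn'.2
      by_cases hs : s i = 0
      · obtain ⟨a, ha, ha'⟩ := pick1 (G := G) v U (by omega)
        exact ⟨_, hU.step hiJ ha' ha (M := ∅) (by simp) hs.symm,
          fun h => absurd hs (h i (mem_insert_self _ _))⟩
      obtain ⟨Pol, p1, p2, p3⟩ := hP fun j hj => by
        have := hup j hj i hiI hiJ
        omega
      have low : ∀ K ⊆ J, K.card * s i ≤ ∑ j ∈ K, s j := fun K hK =>
        card_nsmul_le_sum K s (s i) fun j hj => hup j (hK hj) i hiI hiJ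
      have F4 : ∑ j ∈ J, s j + s i < δ ∨ (δ - σ ≤ J.card ∧ (δ - σ) * s i < δ) := by
        by_cases hh : δ - σ ≤ J.card
        · obtain ⟨K, hK, hcK⟩ := exists_subset_card_eq hh
          exact Or.inr ⟨hh, hcK ▸ (low K hK).trans_lt (h2 K (hK.trans hJ) hcK.le)⟩
        · have := h2 _ hs' (by rw [card_insert_of_notMem hiJ]; omega)
          rw [sum_insert hiJ] at this
          exact Or.inl (by omega)
      have F6 : J.card = 1 → ∑ j ∈ J, s j < δ ∧ s i + 2 ≤ δ := fun h1 => by
        obtain ⟨j, rfl⟩ := card_eq_one.1 h1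
        have hj : j ∈ I := hJ (mem_singleton_self _)
        have t1 := h2 {j} hJ (by rw [card_singleton]; omega)
        have t2 := hup j (mem_singleton_self _) i hiI hiJ
        have t3 := h3 i hiI j hj (fun e => hiJ (e ▸ mem_singleton_self _))
        rw [sum_singleton] at t1 ⊢
        omega
      obtain ⟨k1, k2⟩ := arith (σ := σ) (g := δ - σ) (by omega) (by omega) p3
        ((card_le_card fun u hu => (p1 u hu).1).trans c1) (by omega) F4 (low J Subset.rfl) F6
      obtain ⟨U', Pol', q0, q1, q2, q3⟩ := main_step hmin hv2 A hA hc hσ1 hU (by omega) p1 p2 hiJ hs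
        rfl k1 k2
      exact ⟨U', q0, fun _ => ⟨Pol', q1, q2, by rw [sum_insert hiJ]; omega⟩⟩
  obtain ⟨J, hJ, hcJ, -, U, hU, -⟩ := key I.card le_rfl
  exact ⟨v, U, eq_of_subset_of_card_le hJ hcJ.ge ▸ hU⟩

/-- The upper bound. -/
theorem upper {k : ℕ} (hk : k ≤ 2 * δ) (hmin : ∀ u, δ ≤ G.degree u) (v : V)
    (hv : δ * δ + 31 * δ ≤ G.degree v) (T : SimpleGraph (Fin (k + 1))) (hT : T.IsTree)
    (hd : ∀ x y, T.dist x y ≤ 4) : T.IsContained G :=
  contained_of_sys hT hd fun I s h => exists_sys hmin v hv I s (by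
    rw [Fintype.card_fin] at h
    omega)

end Pool.Agent.P.MP_a0dde7_co
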