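import Pool.Agent.P.MP_a0dde7_co.Main

set_option autoImplicit false

namespace Pool.Agent.P.MP_a0dde7_co.VariantAlphaZero
open Pool.Agent.P.MP_a0dde7_co

/-- For arbitrarily large `k` there is a graph of minimum degree at least `k / 2` and maximum
degree at least `k ^ 2 / 16` that misses some tree with `k` edges. -/
theorem result : ∀ N : ℕ, ∃ k : ℕ, N ≤ k ∧
    ∃ (n : ℕ) (G : SimpleGraph (Fin n)) (T : SimpleGraph (Fin (k + 1))),
      (∀ v, k ≤ 2 * (G.neighborSet v).ncard) ∧ (∃ v, k ^ 2 ≤ 16 * (G.neighborSet v).ncard) ∧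
      T.IsTree ∧
      ¬ ∃ f : Fin (k + 1) → Fin n, Function.Injective f ∧ ∀ a b, T.Adj a b → G.Adj (f a) (f b) := by
  intro N
  obtain ⟨h1, -, T, hT, hn⟩ := family (N + 1) (by omega) (4 * N + 2) (by omega)
  obtain ⟨n, ⟨e⟩⟩ : ∃ n, Nonempty (Option (Fin (N + 1) × Fin (N + 1)) ≃ Fin n) :=
    ⟨_, ⟨Fintype.equivFin _⟩⟩
  have deg : ∀ v, (((apexRook (N + 1)).comap e.symm).neighborSet v).ncard =
      (apexRook (N + 1)).degree (e.symm v) := by
    intro v
    rw [← SimpleGraph.card_neighborFinset_eq_degree, ← Set.ncard_coe_finset,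
      SimpleGraph.coe_neighborFinset, ← Set.ncard_image_of_injective _ e.symm.injective]
    congr 1
    ext w
    obtain ⟨w, rfl⟩ := e.symm.surjective w
    simp
  refine ⟨4 * N + 2, by omega, n, (apexRook (N + 1)).comap e.symm, T, fun v => ?_,
    ⟨e none, ?_⟩, hT, ?_⟩
  · have := (apexRook (N + 1)).minDegree_le_degree (e.symm v)
    rw [deg]
    omega
  · rw [deg, e.symm_apply_apply, apexRook_degree_none]
    nlinarith
  · rintro ⟨f, f1, f2⟩
    exact hn ⟨⟨⟨fun a => e.symm (f a), fun h => f2 _ _ h⟩, e.symm.injective.comp f1⟩⟩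

end Pool.Agent.P.MP_a0dde7_co.VariantAlphaZero
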